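import Pool.Agent.Helper83.TKC.M_Core

/-!
# Project TK, `p = 7`: a symbol of level `147` is determined by five values

Adapted from `Helper93/TLH/M_Bs7.lean`; the list of steps has been made by a program.
-/

set_option autoImplicit false

namespace Pool.Agent.Helper83.TKC

open Pool.Agent.Helper14.CV (Homog EqC act Tl StFar StFex)
open Pool.Agent.Helper28.WK (Tw evw)
open Pool.Agent.Helper4.TK

/-- The content of BS for `p = 7`: a symbol `K` of level `147` with `K∘W ≈ -K`, `K∘* ≈ K` and `K(∞) = K(0) = K(1/7) = K(2/7) = K(3/7)` is constant. -/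
def BsK7 : Prop := ∀ K : ℤ → ℤ → ℂ, SymK 7 0 2 K → EqC (act 0 (-1) (3 * (7 : ℤ) ^ 2) 0 K) (-K) →
  EqC (act (-1) 0 0 1 K) K → K 0 1 = K 1 0 → K 1 7 = K 1 0 → K 2 7 = K 1 0 → K 3 7 = K 1 0 →
  EqC K 0

/-- The representatives of determinant one. -/
private def L1 : List (ℤ × ℤ × ℤ × ℤ) :=
  [(1, 0, 0, 1),
    (1, 0, -6, 1),
    (1, 0, 9, 1),
    (1, 0, 3, 1),
    (1, 0, -3, 1),
    (1, 0, -9, 1),
    (1, 0, 6, 1),
    (1, 1, 0, 1),
    (-1, -1, 9, 8),
    (10, 3, 3, 1),
    (-1, -1, 6, 5),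
    (-1, -1, 3, 2),
    (1, -3, 0, 1),
    (-2, -1, 3, 1),
    (-8, 3, -3, 1),
    (2, 1, 3, 2),
    (1, -2, 0, 1),
    (4, -1, -3, 1),
    (1, 2, 0, 1),
    (4, 1, 3, 1),
    (1, 3, 0, 1),
    (2, -1, -3, 2),
    (-8, -3, 3, 1),
    (-2, 1, -3, 1),
    (1, -1, 0, 1),
    (-1, 1, -3, 2),
    (-1, 1, -6, 5),
    (10, -3, -3, 1),
    (-1, 1, -9, 8)]

/-- The representatives of determinant three. -/
private def L2 : List (ℤ × ℤ × ℤ × ℤ) :=
  [(0, 1, -3, 0),
    (0, -1, 3, 3),
    (0, 1, -3, 9),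
    (0, 1, -3, 6),
    (0, -1, 3, 6),
    (0, -1, 3, 9),
    (0, 1, -3, 3),
    (-6, 1, -3, 0),
    (-3, 4, -3, 3),
    (9, 1, -3, 0),
    (9, 8, 3, 3),
    (3, -2, -3, 3),
    (3, 1, -3, 0),
    (-9, -10, 3, 3),
    (3, 1, 6, 3),
    (3, 1, 24, 9),
    (3, 1, 15, 6),
    (-3, 1, -3, 0),
    (3, -1, -15, 6),
    (3, -1, -24, 9),
    (3, -1, -6, 3),
    (-9, 10, -3, 3),
    (-9, 1, -3, 0),
    (3, 2, 3, 3),
    (9, -8, -3, 3),
    (6, 1, -3, 0),
    (-3, -4, 3, 3)]

set_option maxRecDepth 100000 in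
private lemma cls : ∀ p q r s : ZMod 7, p * s - q * r = 1 → ∃ t ∈ L1 ++ L2,
    q * (t.1 : ZMod 7) - p * (t.2.1 : ZMod 7) = 0 ∧
      r * (t.2.2.2 : ZMod 7) - s * (t.2.2.1 : ZMod 7) = 0 := by decide

private lemma dvd7 {n : ℤ} : (7 : ℤ) ∣ n ↔ (n : ZMod 7) = 0 :=
  (ZMod.intCast_zmod_eq_zero_iff_dvd n 7).symm

/-- The symmetries of `F(x, y) = K(x, 7y)`. -/
private structure Inv (F : ℤ → ℤ → ℂ) : Prop where
  hom : Homog F
  gam : ∀ a b c d : ℤ, KTy a (7 * b) (7 * c) d → ∀ x y z w : ℤ, (x ≠ 0 ∨ y ≠ 0) →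
    (z ≠ 0 ∨ w ≠ 0) → F (a * x + 7 * b * y) (7 * c * x + d * y) -
      F (a * z + 7 * b * w) (7 * c * z + d * w) = F x y - F z w
  st : ∀ x y z w : ℤ, (x ≠ 0 ∨ y ≠ 0) → (z ≠ 0 ∨ w ≠ 0) →
    F (-x) y - F (-z) w = F x y - F z w
  sw : ∀ x y z w : ℤ, (x ≠ 0 ∨ y ≠ 0) → (z ≠ 0 ∨ w ≠ 0) →
    F (-y) (3 * x) - F (-w) (3 * z) = -(F x y - F z w)

private theorem nz {a b c d e : ℤ} (h : a * d - b * c = e) (he : e ≠ 0) :
    (a ≠ 0 ∨ c ≠ 0) ∧ (b ≠ 0 ∨ d ≠ 0) := by
  constructor
  · by_contra hcon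
    push Not at hcon
    rw [hcon.1, hcon.2] at h
    apply he
    rw [← h]
    ring
  · by_contra hcon
    push Not at hcon
    rw [hcon.1, hcon.2] at h
    apply he
    rw [← h]
    ring

private theorem one {F : ℤ → ℤ → ℂ} (h : Inv F) {r1 r2 r3 r4 : ℤ} (hr : KTy r1 r2 r3 r4)
    (h0 : F r1 r3 = F r2 r4)
    {p q r s : ℤ} (hd : p * s - q * r = 1) (hpar : (3 : ℤ) ∣ r) (e1 : (7 : ℤ) ∣ q * r1 - p * r2)
    (e2 : (7 : ℤ) ∣ r * r4 - s * r3) : F p r = F q s := by
  obtain ⟨b, hb⟩ := e1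
  obtain ⟨c, hc⟩ := e2
  have hpr := (nz hd one_ne_zero).1
  have hqs := (nz hd one_ne_zero).2
  have hprod : 7 * b * (7 * c) = (q * r1 - p * r2) * (r * r4 - s * r3) := by rw [hb, hc]
  rcases hr with ⟨hr, hr3⟩ | ⟨hr, hr1, hr3, hr4⟩
  · obtain ⟨n1, n2⟩ := nz hr one_ne_zero
    have hT : KTy (p * r4 - q * r3) (7 * b) (7 * c) (s * r1 - r * r2) := by
      refine Or.inl ⟨?_, ?_⟩
      · rw [hprod]
        linear_combination (p * s - q * r) * hr + hd
      · rw [← hc]
        exact dvd_sub (Dvd.dvd.mul_right hpar _) (Dvd.dvd.mul_left hr3 _)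
    have e := h.gam _ b c _ hT r1 r3 r2 r4 n1 n2
    have g1 : (p * r4 - q * r3) * r1 + 7 * b * r3 = p := by
      linear_combination p * hr - r3 * hb
    have g2 : 7 * c * r1 + (s * r1 - r * r2) * r3 = r := by
      linear_combination r * hr - r1 * hc
    have g3 : (p * r4 - q * r3) * r2 + 7 * b * r4 = q := by
      linear_combination q * hr - r4 * hb
    have g4 : 7 * c * r2 + (s * r1 - r * r2) * r4 = s := by
      linear_combination s * hr - r2 * hc
    rw [g1, g2, g3, g4, h0, sub_self] at e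
    exact sub_eq_zero.1 e
  · obtain ⟨n1, n2⟩ := nz hr three_ne_zero
    have hT : KTy (p * r4 - q * r3) (7 * b) (7 * c) (s * r1 - r * r2) := by
      refine Or.inr ⟨?_, ?_, ?_, ?_⟩
      · rw [hprod]
        linear_combination (p * s - q * r) * hr + 3 * hd
      · exact dvd_sub (Dvd.dvd.mul_left hr4 _) (Dvd.dvd.mul_left hr3 _)
      · rw [← hc]
        exact dvd_sub (Dvd.dvd.mul_right hpar _) (Dvd.dvd.mul_left hr3 _)
      · exact dvd_sub (Dvd.dvd.mul_left hr1 _) (Dvd.dvd.mul_right hpar _)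
    have e := h.gam _ b c _ hT r1 r3 r2 r4 n1 n2
    have g1 : (p * r4 - q * r3) * r1 + 7 * b * r3 = 3 * p := by
      linear_combination p * hr - r3 * hb
    have g2 : 7 * c * r1 + (s * r1 - r * r2) * r3 = 3 * r := by
      linear_combination r * hr - r1 * hc
    have g3 : (p * r4 - q * r3) * r2 + 7 * b * r4 = 3 * q := by
      linear_combination q * hr - r4 * hb
    have g4 : 7 * c * r2 + (s * r1 - r * r2) * r4 = 3 * s := by
      linear_combination s * hr - r2 * hc
    rw [g1, g2, g3, g4, h0, sub_self, h.hom 3 p r three_ne_zero hpr,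
      h.hom 3 q s three_ne_zero hqs] at e
    exact sub_eq_zero.1 e

private theorem main {F : ℤ → ℤ → ℂ} (h : Inv F) {κ : ℂ} (k0 : F 1 0 = κ) (b0 : F 0 1 = κ)
    (k1 : F 1 1 = κ) (k2 : F 2 1 = κ) (k3 : F 3 1 = κ) (hfar : StFar) : EqC F 0 := by
  -- homogeneity
  have hs : ∀ (k x y : ℤ), k ≠ 0 → (x ≠ 0 ∨ y ≠ 0) → F (k * x) (k * y) = F x y := h.hom
  have st : ∀ x y : ℤ, (x ≠ 0 ∨ y ≠ 0) → F (-x) y = F x y := by
    intro x y hv
    have e := h.st x y 1 0 hv (by norm_num)
    have e0 := hs (-1) 1 0 (by norm_num) (by norm_num)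
    norm_num at e0
    rw [e0] at e
    linear_combination e
  have sw : ∀ x y : ℤ, (x ≠ 0 ∨ y ≠ 0) → F (-y) (3 * x) - κ = -(F x y - κ) := by
    intro x y hv
    have e := h.sw x y 1 0 hv (by norm_num)
    have e2 := hs 3 0 1 (by norm_num) (by norm_num)
    norm_num at e e2
    rw [e2, k0, b0] at e
    linear_combination e
  have cl : ∀ x y : ℤ, (x ≠ 0 ∨ y ≠ 0) → F x y = κ → ∀ k X Y : ℤ, k ≠ 0 →
      ((X = k * x ∧ Y = k * y) ∨ (X = -(k * x) ∧ Y = k * y)) → F X Y = κ := by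
    rintro x y hv hx k X Y hk (⟨rfl, rfl⟩ | ⟨rfl, rfl⟩)
    · rw [hs k x y hk hv, hx]
    · have e : -(k * x) = k * (-x) := by ring
      rw [e, hs k (-x) y hk (by rcases hv with h | h; exacts [Or.inl (neg_ne_zero.2 h), Or.inr h]),
        st x y hv, hx]
  have sk : ∀ x y X Y k : ℤ, ((x ≠ 0 ∨ y ≠ 0) ∧ (X ≠ 0 ∨ Y ≠ 0) ∧ k ≠ 0 ∧
      ((-y = k * X ∧ 3 * x = k * Y) ∨ (-y = -(k * X) ∧ 3 * x = k * Y))) →
      F X Y = 2 * κ - F x y := by
    rintro x y X Y k ⟨hv, hV, hk, h1 | h1⟩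
    · have e := sw x y hv
      rw [h1.1, h1.2, hs k X Y hk hV] at e
      linear_combination e
    · have e := sw x y hv
      have e1 : -(k * X) = k * (-X) := by ring
      rw [h1.1, h1.2, e1, hs k (-X) Y hk
        (by rcases hV with h | h; exacts [Or.inl (neg_ne_zero.2 h), Or.inr h]), st X Y hV] at e
      linear_combination e
  have wk : ∀ x y X Y k : ℤ, ((x ≠ 0 ∨ y ≠ 0) ∧ (X ≠ 0 ∨ Y ≠ 0) ∧ k ≠ 0 ∧
      ((-y = k * X ∧ 3 * x = k * Y) ∨ (-y = -(k * X) ∧ 3 * x = k * Y))) → F x y = κ →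
      F X Y = κ := by
    intro x y X Y k hc hx
    linear_combination sk x y X Y k hc - hx
  have stn : ∀ x y X : ℤ, (X = -x ∧ (x ≠ 0 ∨ y ≠ 0)) → F X y = F x y := by
    rintro x y X ⟨rfl, hv⟩
    exact st x y hv
  have G : ∀ a b c d : ℤ, KTy a (7 * b) (7 * c) d → ∀ x y z w X Y Z W k l : ℤ,
      ((x ≠ 0 ∨ y ≠ 0) ∧ (z ≠ 0 ∨ w ≠ 0) ∧ (X ≠ 0 ∨ Y ≠ 0) ∧ (Z ≠ 0 ∨ W ≠ 0) ∧ k ≠ 0 ∧ l ≠ 0 ∧
        a * x + 7 * b * y = k * X ∧ 7 * c * x + d * y = k * Y ∧
        a * z + 7 * b * w = l * Z ∧ 7 * c * z + d * w = l * W) →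
      F X Y - F Z W = F x y - F z w := by
    rintro a b c d hT x y z w X Y Z W k l ⟨n1, n2, n3, n4, hk, hl, q1, q2, q3, q4⟩
    have e := h.gam a b c d hT x y z w n1 n2
    rw [q1, q2, q3, q4, hs k X Y hk n3, hs l Z W hl n4] at e
    exact e
  have c1_3 : F 1 3 = κ := wk (1) (1) (1) (3) (1) (by decide) k1
  have c1_9 : F 1 9 = κ := wk (3) (1) (1) (9) (1) (by decide) k3
  have c1_6 : F 1 6 = κ := wk (2) (1) (1) (6) (1) (by decide) k2
  have e1 : F (8) (3) = F (1) (8) := by
    linear_combination (G (48) (-1) (3) (-3) (Or.inr (by decide)) (1) (8) (1) (6) (8) (3) (2) (1) (-1) (3) (by decide)) + k2 - c1_6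
  have c1_8 : F 1 8 = κ := (by linear_combination (sk (1) (8) (8) (3) (1) (by decide) - e1) / 2)
  have e2 : F (1) (9) = F (1) (10) := by
    linear_combination 5 / 6 * (G (69) (-1) (93) (-66) (Or.inr (by decide)) (1) (10) (1) (9) (1) (9) (2) (19) (-1) (3) (by decide)) +
      4 / 6 * (G (69) (-1) (93) (-66) (Or.inr (by decide)) (1) (9) (2) (19) (2) (19) (5) (48) (3) (1) (by decide)) +
      3 / 6 * (G (69) (-1) (93) (-66) (Or.inr (by decide)) (2) (19) (5) (48) (5) (48) (3) (29) (1) (3) (by decide)) +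
      2 / 6 * (G (69) (-1) (93) (-66) (Or.inr (by decide)) (5) (48) (3) (29) (3) (29) (4) (39) (3) (1) (by decide)) +
      1 / 6 * (G (69) (-1) (93) (-66) (Or.inr (by decide)) (3) (29) (4) (39) (4) (39) (1) (10) (1) (3) (by decide))
  have c1_10 : F 1 10 = κ := (e2.symm.trans c1_9)
  have c10_3 : F 10 3 = κ := wk (1) (10) (10) (3) (1) (by decide) c1_10
  have e4 : F (4) (3) = F (1) (4) := by
    linear_combination (G (24) (-1) (3) (-6) (Or.inr (by decide)) (1) (4) (1) (3) (4) (3) (1) (1) (-1) (3) (by decide)) + k1 - c1_3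
  have c1_4 : F 1 4 = κ := (by linear_combination (sk (1) (4) (4) (3) (1) (by decide) - e4) / 2)
  have e3 : F (-11) (4) = F (1) (5) := by
    linear_combination (G (59) (-2) (-3) (5) (Or.inl (by decide)) (1) (5) (1) (4) (-11) (4) (-3) (1) (1) (-1) (by decide)) + (cl 3 1 (by decide) k3 (1) (-3) (1) (by decide) (by decide)) - c1_4
  have e6 : F (13) (15) = F (5) (13) := by
    linear_combination (G (39) (-2) (6) (-15) (Or.inr (by decide)) (5) (13) (1) (3) (13) (15) (1) (1) (1) (-3) (by decide)) + k1 - c1_3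
  have c5_13 : F 5 13 = κ := (by linear_combination (sk (5) (13) (13) (15) (1) (by decide) - e6) / 2)
  have c13_15 : F 13 15 = κ := wk (-5) (13) (13) (15) (-1) (by decide) (cl 5 13 (by decide) c5_13 (1) (-5) (13) (by decide) (by decide))
  have e5 : F (2) (3) = F (11) (4) := by
    linear_combination (G (18) (-7) (3) (-57) (Or.inr (by decide)) (11) (4) (2) (1) (2) (3) (13) (15) (1) (-1) (by decide)) + c13_15 - k2
  have e7 : F (1) (2) = F (2) (3) := by
    linear_combination 1 / 2 * (G (12) (-1) (3) (-12) (Or.inr (by decide)) (2) (3) (1) (2) (1) (2) (2) (3) (3) (-1) (by decide))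
  have c2_3 : F 2 3 = κ := (by linear_combination (sk (2) (3) (1) (2) (3) (by decide) - e7) / 2)
  have c11_4 : F 11 4 = κ := (e5.symm.trans c2_3)
  have c1_5 : F 1 5 = κ := (e3.symm.trans (cl 11 4 (by decide) c11_4 (1) (-11) (4) (by decide) (by decide)))
  have e8 : F (2) (3) = F (1) (2) := by
    linear_combination 1 / 2 * (G (12) (-1) (3) (-12) (Or.inr (by decide)) (1) (2) (2) (3) (2) (3) (1) (2) (-1) (3) (by decide))
  have c1_2 : F 1 2 = κ := (by linear_combination (sk (1) (2) (2) (3) (1) (by decide) - e8) / 2)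
  have e9 : F (1) (4) = F (4) (3) := by
    linear_combination (G (6) (-1) (3) (-24) (Or.inr (by decide)) (4) (3) (1) (1) (1) (4) (1) (3) (3) (-1) (by decide)) + c1_3 - k1
  have c4_3 : F 4 3 = κ := (by linear_combination (sk (4) (3) (1) (4) (3) (by decide) - e9) / 2)
  have e10 : F (1) (8) = F (8) (3) := by
    linear_combination (G (3) (-1) (3) (-48) (Or.inr (by decide)) (8) (3) (2) (1) (1) (8) (1) (6) (3) (-1) (by decide)) + c1_6 - k2
  have c8_3 : F 8 3 = κ := (by linear_combination (sk (8) (3) (1) (8) (3) (by decide) - e10) / 2)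
  refine far3 hfar F h.hom fun p q r s hd hpar => ?_
  have hL : ∀ t ∈ L1 ++ L2, KTy t.1 t.2.1 t.2.2.1 t.2.2.2 ∧ F t.1 t.2.2.1 = κ ∧
      F t.2.1 t.2.2.2 = κ := by
    intro t ht
    simp only [L1, L2, List.cons_append, List.nil_append, List.mem_cons, List.not_mem_nil,
      or_false] at ht
    rcases ht with rfl | rfl | rfl | rfl | rfl | rfl | rfl | rfl | rfl | rfl | rfl | rfl | rfl | rfl | rfl | rfl | rfl | rfl | rfl | rfl | rfl | rfl | rfl | rfl | rfl | rfl | rfl | rfl | rfl | rfl | rfl | rfl | rfl | rfl | rfl | rfl | rfl | rfl | rfl | rfl | rfl | rfl | rfl | rfl | rfl | rfl | rfl | rfl | rfl | rfl | rfl | rfl | rfl | rfl | rfl | rfl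
    · exact ⟨Or.inl (by decide), cl 1 0 (by decide) k0 (1) _ _ (by decide) (by decide),
        cl 0 1 (by decide) b0 (1) _ _ (by decide) (by decide)⟩
    · exact ⟨Or.inl (by decide), cl 1 6 (by decide) c1_6 (-1) _ _ (by decide) (by decide),
        cl 0 1 (by decide) b0 (1) _ _ (by decide) (by decide)⟩
    · exact ⟨Or.inl (by decide), cl 1 9 (by decide) c1_9 (1) _ _ (by decide) (by decide),
        cl 0 1 (by decide) b0 (1) _ _ (by decide) (by decide)⟩
    · exact ⟨Or.inl (by decide), cl 1 3 (by decide) c1_3 (1) _ _ (by decide) (by decide),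
        cl 0 1 (by decide) b0 (1) _ _ (by decide) (by decide)⟩
    · exact ⟨Or.inl (by decide), cl 1 3 (by decide) c1_3 (-1) _ _ (by decide) (by decide),
        cl 0 1 (by decide) b0 (1) _ _ (by decide) (by decide)⟩
    · exact ⟨Or.inl (by decide), cl 1 9 (by decide) c1_9 (-1) _ _ (by decide) (by decide),
        cl 0 1 (by decide) b0 (1) _ _ (by decide) (by decide)⟩
    · exact ⟨Or.inl (by decide), cl 1 6 (by decide) c1_6 (1) _ _ (by decide) (by decide),
        cl 0 1 (by decide) b0 (1) _ _ (by decide) (by decide)⟩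
    · exact ⟨Or.inl (by decide), cl 1 0 (by decide) k0 (1) _ _ (by decide) (by decide),
        cl 1 1 (by decide) k1 (1) _ _ (by decide) (by decide)⟩
    · exact ⟨Or.inl (by decide), cl 1 9 (by decide) c1_9 (1) _ _ (by decide) (by decide),
        cl 1 8 (by decide) c1_8 (1) _ _ (by decide) (by decide)⟩
    · exact ⟨Or.inl (by decide), cl 10 3 (by decide) c10_3 (1) _ _ (by decide) (by decide),
        cl 3 1 (by decide) k3 (1) _ _ (by decide) (by decide)⟩
    · exact ⟨Or.inl (by decide), cl 1 6 (by decide) c1_6 (1) _ _ (by decide) (by decide),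
        cl 1 5 (by decide) c1_5 (1) _ _ (by decide) (by decide)⟩
    · exact ⟨Or.inl (by decide), cl 1 3 (by decide) c1_3 (1) _ _ (by decide) (by decide),
        cl 1 2 (by decide) c1_2 (1) _ _ (by decide) (by decide)⟩
    · exact ⟨Or.inl (by decide), cl 1 0 (by decide) k0 (1) _ _ (by decide) (by decide),
        cl 3 1 (by decide) k3 (1) _ _ (by decide) (by decide)⟩
    · exact ⟨Or.inl (by decide), cl 2 3 (by decide) c2_3 (1) _ _ (by decide) (by decide),
        cl 1 1 (by decide) k1 (1) _ _ (by decide) (by decide)⟩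
    · exact ⟨Or.inl (by decide), cl 8 3 (by decide) c8_3 (-1) _ _ (by decide) (by decide),
        cl 3 1 (by decide) k3 (1) _ _ (by decide) (by decide)⟩
    · exact ⟨Or.inl (by decide), cl 2 3 (by decide) c2_3 (1) _ _ (by decide) (by decide),
        cl 1 2 (by decide) c1_2 (1) _ _ (by decide) (by decide)⟩
    · exact ⟨Or.inl (by decide), cl 1 0 (by decide) k0 (1) _ _ (by decide) (by decide),
        cl 2 1 (by decide) k2 (1) _ _ (by decide) (by decide)⟩
    · exact ⟨Or.inl (by decide), cl 4 3 (by decide) c4_3 (-1) _ _ (by decide) (by decide),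
        cl 1 1 (by decide) k1 (1) _ _ (by decide) (by decide)⟩
    · exact ⟨Or.inl (by decide), cl 1 0 (by decide) k0 (1) _ _ (by decide) (by decide),
        cl 2 1 (by decide) k2 (1) _ _ (by decide) (by decide)⟩
    · exact ⟨Or.inl (by decide), cl 4 3 (by decide) c4_3 (1) _ _ (by decide) (by decide),
        cl 1 1 (by decide) k1 (1) _ _ (by decide) (by decide)⟩
    · exact ⟨Or.inl (by decide), cl 1 0 (by decide) k0 (1) _ _ (by decide) (by decide),
        cl 3 1 (by decide) k3 (1) _ _ (by decide) (by decide)⟩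
    · exact ⟨Or.inl (by decide), cl 2 3 (by decide) c2_3 (-1) _ _ (by decide) (by decide),
        cl 1 2 (by decide) c1_2 (1) _ _ (by decide) (by decide)⟩
    · exact ⟨Or.inl (by decide), cl 8 3 (by decide) c8_3 (1) _ _ (by decide) (by decide),
        cl 3 1 (by decide) k3 (1) _ _ (by decide) (by decide)⟩
    · exact ⟨Or.inl (by decide), cl 2 3 (by decide) c2_3 (-1) _ _ (by decide) (by decide),
        cl 1 1 (by decide) k1 (1) _ _ (by decide) (by decide)⟩
    · exact ⟨Or.inl (by decide), cl 1 0 (by decide) k0 (1) _ _ (by decide) (by decide),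
        cl 1 1 (by decide) k1 (1) _ _ (by decide) (by decide)⟩
    · exact ⟨Or.inl (by decide), cl 1 3 (by decide) c1_3 (-1) _ _ (by decide) (by decide),
        cl 1 2 (by decide) c1_2 (1) _ _ (by decide) (by decide)⟩
    · exact ⟨Or.inl (by decide), cl 1 6 (by decide) c1_6 (-1) _ _ (by decide) (by decide),
        cl 1 5 (by decide) c1_5 (1) _ _ (by decide) (by decide)⟩
    · exact ⟨Or.inl (by decide), cl 10 3 (by decide) c10_3 (-1) _ _ (by decide) (by decide),
        cl 3 1 (by decide) k3 (1) _ _ (by decide) (by decide)⟩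
    · exact ⟨Or.inl (by decide), cl 1 9 (by decide) c1_9 (-1) _ _ (by decide) (by decide),
        cl 1 8 (by decide) c1_8 (1) _ _ (by decide) (by decide)⟩
    · exact ⟨Or.inr (by decide), cl 0 1 (by decide) b0 (-3) _ _ (by decide) (by decide),
        cl 1 0 (by decide) k0 (1) _ _ (by decide) (by decide)⟩
    · exact ⟨Or.inr (by decide), cl 0 1 (by decide) b0 (3) _ _ (by decide) (by decide),
        cl 1 3 (by decide) c1_3 (1) _ _ (by decide) (by decide)⟩
    · exact ⟨Or.inr (by decide), cl 0 1 (by decide) b0 (-3) _ _ (by decide) (by decide),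
        cl 1 9 (by decide) c1_9 (1) _ _ (by decide) (by decide)⟩
    · exact ⟨Or.inr (by decide), cl 0 1 (by decide) b0 (-3) _ _ (by decide) (by decide),
        cl 1 6 (by decide) c1_6 (1) _ _ (by decide) (by decide)⟩
    · exact ⟨Or.inr (by decide), cl 0 1 (by decide) b0 (3) _ _ (by decide) (by decide),
        cl 1 6 (by decide) c1_6 (1) _ _ (by decide) (by decide)⟩
    · exact ⟨Or.inr (by decide), cl 0 1 (by decide) b0 (3) _ _ (by decide) (by decide),
        cl 1 9 (by decide) c1_9 (1) _ _ (by decide) (by decide)⟩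
    · exact ⟨Or.inr (by decide), cl 0 1 (by decide) b0 (-3) _ _ (by decide) (by decide),
        cl 1 3 (by decide) c1_3 (1) _ _ (by decide) (by decide)⟩
    · exact ⟨Or.inr (by decide), cl 2 1 (by decide) k2 (-3) _ _ (by decide) (by decide),
        cl 1 0 (by decide) k0 (1) _ _ (by decide) (by decide)⟩
    · exact ⟨Or.inr (by decide), cl 1 1 (by decide) k1 (-3) _ _ (by decide) (by decide),
        cl 4 3 (by decide) c4_3 (1) _ _ (by decide) (by decide)⟩
    · exact ⟨Or.inr (by decide), cl 3 1 (by decide) k3 (-3) _ _ (by decide) (by decide),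
        cl 1 0 (by decide) k0 (1) _ _ (by decide) (by decide)⟩
    · exact ⟨Or.inr (by decide), cl 3 1 (by decide) k3 (3) _ _ (by decide) (by decide),
        cl 8 3 (by decide) c8_3 (1) _ _ (by decide) (by decide)⟩
    · exact ⟨Or.inr (by decide), cl 1 1 (by decide) k1 (-3) _ _ (by decide) (by decide),
        cl 2 3 (by decide) c2_3 (1) _ _ (by decide) (by decide)⟩
    · exact ⟨Or.inr (by decide), cl 1 1 (by decide) k1 (-3) _ _ (by decide) (by decide),
        cl 1 0 (by decide) k0 (1) _ _ (by decide) (by decide)⟩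
    · exact ⟨Or.inr (by decide), cl 3 1 (by decide) k3 (3) _ _ (by decide) (by decide),
        cl 10 3 (by decide) c10_3 (1) _ _ (by decide) (by decide)⟩
    · exact ⟨Or.inr (by decide), cl 1 2 (by decide) c1_2 (3) _ _ (by decide) (by decide),
        cl 1 3 (by decide) c1_3 (1) _ _ (by decide) (by decide)⟩
    · exact ⟨Or.inr (by decide), cl 1 8 (by decide) c1_8 (3) _ _ (by decide) (by decide),
        cl 1 9 (by decide) c1_9 (1) _ _ (by decide) (by decide)⟩
    · exact ⟨Or.inr (by decide), cl 1 5 (by decide) c1_5 (3) _ _ (by decide) (by decide),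
        cl 1 6 (by decide) c1_6 (1) _ _ (by decide) (by decide)⟩
    · exact ⟨Or.inr (by decide), cl 1 1 (by decide) k1 (-3) _ _ (by decide) (by decide),
        cl 1 0 (by decide) k0 (1) _ _ (by decide) (by decide)⟩
    · exact ⟨Or.inr (by decide), cl 1 5 (by decide) c1_5 (-3) _ _ (by decide) (by decide),
        cl 1 6 (by decide) c1_6 (1) _ _ (by decide) (by decide)⟩
    · exact ⟨Or.inr (by decide), cl 1 8 (by decide) c1_8 (-3) _ _ (by decide) (by decide),
        cl 1 9 (by decide) c1_9 (1) _ _ (by decide) (by decide)⟩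
    · exact ⟨Or.inr (by decide), cl 1 2 (by decide) c1_2 (-3) _ _ (by decide) (by decide),
        cl 1 3 (by decide) c1_3 (1) _ _ (by decide) (by decide)⟩
    · exact ⟨Or.inr (by decide), cl 3 1 (by decide) k3 (-3) _ _ (by decide) (by decide),
        cl 10 3 (by decide) c10_3 (1) _ _ (by decide) (by decide)⟩
    · exact ⟨Or.inr (by decide), cl 3 1 (by decide) k3 (-3) _ _ (by decide) (by decide),
        cl 1 0 (by decide) k0 (1) _ _ (by decide) (by decide)⟩
    · exact ⟨Or.inr (by decide), cl 1 1 (by decide) k1 (3) _ _ (by decide) (by decide),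
        cl 2 3 (by decide) c2_3 (1) _ _ (by decide) (by decide)⟩
    · exact ⟨Or.inr (by decide), cl 3 1 (by decide) k3 (-3) _ _ (by decide) (by decide),
        cl 8 3 (by decide) c8_3 (1) _ _ (by decide) (by decide)⟩
    · exact ⟨Or.inr (by decide), cl 2 1 (by decide) k2 (-3) _ _ (by decide) (by decide),
        cl 1 0 (by decide) k0 (1) _ _ (by decide) (by decide)⟩
    · exact ⟨Or.inr (by decide), cl 1 1 (by decide) k1 (3) _ _ (by decide) (by decide),
        cl 4 3 (by decide) c4_3 (1) _ _ (by decide) (by decide)⟩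
  have hc : (p : ZMod 7) * s - q * r = 1 := by
    have h' := congrArg (Int.cast : ℤ → ZMod 7) hd
    push_cast at h'
    exact h'
  obtain ⟨t, htL, e1, e2⟩ := cls _ _ _ _ hc
  obtain ⟨f1, f2, f3⟩ := hL t htL
  exact one h f1 (f2.trans f3.symm) hd hpar (dvd7.2 (by push_cast; exact e1))
    (dvd7.2 (by push_cast; exact e2))

private theorem five {x y : ℤ} (h : x ≠ 0 ∨ y ≠ 0) : x ≠ 0 ∨ 7 * y ≠ 0 := by
  rcases h with h | h
  · exact Or.inl h
  · exact Or.inr (by omega)

/-- BS for `p = 7`. -/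
theorem hBsK7 (hfar : StFar) : BsK7 := by
  intro K hS hW hst h0 h1 h2 h3
  obtain ⟨hH, hG⟩ := hS
  obtain ⟨F, hF⟩ : ∃ F : ℤ → ℤ → ℂ, ∀ x y, F x y = K x (7 * y) := ⟨fun x y => K x (7 * y),
    fun _ _ => rfl⟩
  have hI : Inv F := by
    refine ⟨?_, ?_, ?_, ?_⟩
    · intro k p q hk hpq
      rw [hF, hF]
      have := hH k p (7 * q) hk (five hpq)
      rw [← this]
      congr 1; ring
    · intro a b c d hd x y z w hv hw
      have hT : KTy a b (49 * c) d := by
        rcases hd with ⟨h1, h2⟩ | ⟨h1, h2, h3, h4⟩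
        · exact Or.inl ⟨by linear_combination h1, by omega⟩
        · exact Or.inr ⟨by linear_combination h1, h2, by omega, h4⟩
      have e := (hG a b (49 * c) d hT (by simp) ⟨c, by norm_num⟩).diff (five hv) (five hw)
      simp only [act] at e
      rw [hF, hF, hF, hF, ← e]
      congr 2 <;> ring
    · intro x y z w hv hw
      have e := hst.diff (five hv) (five hw)
      simp only [act] at e
      rw [hF, hF, hF, hF, ← e]
      congr 2 <;> ring
    · intro x y z w hv hw
      have e := hW.diff (five hv) (five hw)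
      simp only [act, Pi.neg_apply] at e
      have q1 : ∀ x y : ℤ, (x ≠ 0 ∨ y ≠ 0) →
          K (0 * x + -1 * (7 * y)) (3 * (7 : ℤ) ^ 2 * x + 0 * (7 * y)) = F (-y) (3 * x) := by
        intro x y hv
        rw [hF]
        have := hH 7 (-y) (7 * (3 * x)) (by norm_num) (by omega)
        rw [← this]
        congr 1 <;> ring
      rw [q1 x y hv, q1 z w hw] at e
      rw [e, hF, hF]
      ring
  have hc : EqC F 0 := by
    refine main hI (κ := K 1 0) ?_ ?_ ?_ ?_ ?_ hfar
    · rw [hF]; norm_num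
    · rw [hF, ← h0]
      have := hH 7 0 1 (by norm_num) (by norm_num)
      norm_num at this ⊢
      exact this
    · rw [hF, ← h1]; norm_num
    · rw [hF, ← h2]; norm_num
    · rw [hF, ← h3]; norm_num
  obtain ⟨c, hc⟩ := hc
  refine ⟨c, fun p q hpq => ?_⟩
  have e1 := hc (7 * p) q (by omega)
  rw [hF] at e1
  have e2 := hH 7 p q (by norm_num) hpq
  rw [← e2, e1]
  simp

end Pool.Agent.Helper83.TKC
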