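import Pool.Agent.Helper83.TKC.M_Core

/-!
# Project TK: a symbol of level `75` is determined by four values

Adapted from `Helper93/TLH/M_Bs7.lean`.
-/

set_option autoImplicit false

namespace Pool.Agent.Helper83.TKC

open Pool.Agent.Helper14.CV (Homog EqC act Tl StFar StFex)
open Pool.Agent.Helper28.WK (Tw evw)
open Pool.Agent.Helper4.TK

/-- The representatives of determinant one. -/
private def L1 : List (ℤ × ℤ × ℤ × ℤ) :=
  [(4, 1, 3, 1),
    (4, -1, -3, 1),
    (1, -1, 3, -2),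
    (2, -1, 3, -1),
    (2, 1, -3, -1),
    (1, 1, -3, -2),
    (2, 1, 3, 2),
    (2, -1, -3, 2),
    (1, 2, 0, 1),
    (1, 1, 0, 1),
    (1, 0, 6, 1),
    (1, 0, 3, 1),
    (1, 0, 0, 1),
    (1, 0, -3, 1),
    (1, 0, -6, 1),
    (1, -1, 0, 1),
    (1, -2, 0, 1)]

/-- The representatives of determinant three. -/
private def L2 : List (ℤ × ℤ × ℤ × ℤ) :=
  [(6, 1, -3, 0),
    (6, -1, 3, 0),
    (3, 4, -3, -3),
    (3, 2, -6, -3),
    (3, 1, -3, 0),
    (3, -4, 3, -3),
    (3, -1, 3, 0),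
    (3, -2, 6, -3),
    (0, 1, -3, 6),
    (0, 1, -3, 3),
    (0, 1, -3, 0),
    (0, 1, -3, -3),
    (0, 1, -3, -6)]

set_option maxRecDepth 100000 in
private lemma cls : ∀ p q r s : ZMod 5, p * s - q * r = 1 → ∃ t ∈ L1 ++ L2,
    q * (t.1 : ZMod 5) - p * (t.2.1 : ZMod 5) = 0 ∧
      r * (t.2.2.2 : ZMod 5) - s * (t.2.2.1 : ZMod 5) = 0 := by decide

private lemma dvd5 {n : ℤ} : (5 : ℤ) ∣ n ↔ (n : ZMod 5) = 0 :=
  (ZMod.intCast_zmod_eq_zero_iff_dvd n 5).symm

/-- The symmetries of `F(x, y) = K(x, 5y)`. -/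
private structure Inv (F : ℤ → ℤ → ℂ) : Prop where
  hom : Homog F
  gam : ∀ a b c d : ℤ, KTy a (5 * b) (5 * c) d → ∀ x y z w : ℤ, (x ≠ 0 ∨ y ≠ 0) →
    (z ≠ 0 ∨ w ≠ 0) → F (a * x + 5 * b * y) (5 * c * x + d * y) -
      F (a * z + 5 * b * w) (5 * c * z + d * w) = F x y - F z w
  st : ∀ x y z w : ℤ, (x ≠ 0 ∨ y ≠ 0) → (z ≠ 0 ∨ w ≠ 0) →
    F (-x) y - F (-z) w = F x y - F z w
  sw : ∀ x y z w : ℤ, (x ≠ 0 ∨ y ≠ 0) → (z ≠ 0 ∨ w ≠ 0) →
    F (-y) (3 * x) - F (-w) (3 * z) = -(F x y - F z w)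

private theorem nz {a b c d e : ℤ} (h : a * d - b * c = e) (he : e ≠ 0) :
    (a ≠ 0 ∨ c ≠ 0) ∧ (b ≠ 0 ∨ d ≠ 0) := by
  constructor
  · by_contra hcon
    push Not at hcon
    rw [hcon.1, hcon.2] at h
    apply he
    rw [← h]
    ring
  · by_contra hcon
    push Not at hcon
    rw [hcon.1, hcon.2] at h
    apply he
    rw [← h]
    ring

private theorem one {F : ℤ → ℤ → ℂ} (h : Inv F) {r1 r2 r3 r4 : ℤ} (hr : KTy r1 r2 r3 r4)
    (h0 : F r1 r3 = F r2 r4)
    {p q r s : ℤ} (hd : p * s - q * r = 1) (hpar : (3 : ℤ) ∣ r) (e1 : (5 : ℤ) ∣ q * r1 - p * r2)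
    (e2 : (5 : ℤ) ∣ r * r4 - s * r3) : F p r = F q s := by
  obtain ⟨b, hb⟩ := e1
  obtain ⟨c, hc⟩ := e2
  have hpr := (nz hd one_ne_zero).1
  have hqs := (nz hd one_ne_zero).2
  have hprod : 5 * b * (5 * c) = (q * r1 - p * r2) * (r * r4 - s * r3) := by rw [hb, hc]
  rcases hr with ⟨hr, hr3⟩ | ⟨hr, hr1, hr3, hr4⟩
  · obtain ⟨n1, n2⟩ := nz hr one_ne_zero
    have hT : KTy (p * r4 - q * r3) (5 * b) (5 * c) (s * r1 - r * r2) := by
      refine Or.inl ⟨?_, ?_⟩
      · rw [hprod]
        linear_combination (p * s - q * r) * hr + hd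
      · rw [← hc]
        exact dvd_sub (Dvd.dvd.mul_right hpar _) (Dvd.dvd.mul_left hr3 _)
    have e := h.gam _ b c _ hT r1 r3 r2 r4 n1 n2
    have g1 : (p * r4 - q * r3) * r1 + 5 * b * r3 = p := by
      linear_combination p * hr - r3 * hb
    have g2 : 5 * c * r1 + (s * r1 - r * r2) * r3 = r := by
      linear_combination r * hr - r1 * hc
    have g3 : (p * r4 - q * r3) * r2 + 5 * b * r4 = q := by
      linear_combination q * hr - r4 * hb
    have g4 : 5 * c * r2 + (s * r1 - r * r2) * r4 = s := by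
      linear_combination s * hr - r2 * hc
    rw [g1, g2, g3, g4, h0, sub_self] at e
    exact sub_eq_zero.1 e
  · obtain ⟨n1, n2⟩ := nz hr three_ne_zero
    have hT : KTy (p * r4 - q * r3) (5 * b) (5 * c) (s * r1 - r * r2) := by
      refine Or.inr ⟨?_, ?_, ?_, ?_⟩
      · rw [hprod]
        linear_combination (p * s - q * r) * hr + 3 * hd
      · exact dvd_sub (Dvd.dvd.mul_left hr4 _) (Dvd.dvd.mul_left hr3 _)
      · rw [← hc]
        exact dvd_sub (Dvd.dvd.mul_right hpar _) (Dvd.dvd.mul_left hr3 _)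
      · exact dvd_sub (Dvd.dvd.mul_left hr1 _) (Dvd.dvd.mul_right hpar _)
    have e := h.gam _ b c _ hT r1 r3 r2 r4 n1 n2
    have g1 : (p * r4 - q * r3) * r1 + 5 * b * r3 = 3 * p := by
      linear_combination p * hr - r3 * hb
    have g2 : 5 * c * r1 + (s * r1 - r * r2) * r3 = 3 * r := by
      linear_combination r * hr - r1 * hc
    have g3 : (p * r4 - q * r3) * r2 + 5 * b * r4 = 3 * q := by
      linear_combination q * hr - r4 * hb
    have g4 : 5 * c * r2 + (s * r1 - r * r2) * r4 = 3 * s := by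
      linear_combination s * hr - r2 * hc
    rw [g1, g2, g3, g4, h0, sub_self, h.hom 3 p r three_ne_zero hpr,
      h.hom 3 q s three_ne_zero hqs] at e
    exact sub_eq_zero.1 e

private theorem main {F : ℤ → ℤ → ℂ} (h : Inv F) {κ : ℂ} (k0 : F 1 0 = κ) (b0 : F 0 1 = κ)
    (k1 : F 1 1 = κ) (k2 : F 2 1 = κ) (hfar : StFar) : EqC F 0 := by
  -- homogeneity
  have hs : ∀ (k x y : ℤ), k ≠ 0 → (x ≠ 0 ∨ y ≠ 0) → F (k * x) (k * y) = F x y := h.hom
  have st : ∀ x y : ℤ, (x ≠ 0 ∨ y ≠ 0) → F (-x) y = F x y := by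
    intro x y hv
    have e := h.st x y 1 0 hv (by norm_num)
    have e0 := hs (-1) 1 0 (by norm_num) (by norm_num)
    norm_num at e0
    rw [e0] at e
    linear_combination e
  have sw : ∀ x y : ℤ, (x ≠ 0 ∨ y ≠ 0) → F (-y) (3 * x) - κ = -(F x y - κ) := by
    intro x y hv
    have e := h.sw x y 1 0 hv (by norm_num)
    have e2 := hs 3 0 1 (by norm_num) (by norm_num)
    norm_num at e e2
    rw [e2, k0, b0] at e
    linear_combination e
  have cl : ∀ x y : ℤ, (x ≠ 0 ∨ y ≠ 0) → F x y = κ → ∀ k X Y : ℤ, k ≠ 0 →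
      ((X = k * x ∧ Y = k * y) ∨ (X = -(k * x) ∧ Y = k * y)) → F X Y = κ := by
    rintro x y hv hx k X Y hk (⟨rfl, rfl⟩ | ⟨rfl, rfl⟩)
    · rw [hs k x y hk hv, hx]
    · have e : -(k * x) = k * (-x) := by ring
      rw [e, hs k (-x) y hk (by rcases hv with h | h; exacts [Or.inl (neg_ne_zero.2 h), Or.inr h]),
        st x y hv, hx]
  -- values by the involution
  have wv : ∀ x y : ℤ, (x ≠ 0 ∨ y ≠ 0) → F x y = κ → F (-y) (3 * x) = κ := by
    intro x y hv hx
    have e := sw x y hv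
    rw [hx, sub_self, neg_zero] at e
    exact sub_eq_zero.1 e
  have h13 : F 1 3 = κ := cl (-1) 3 (by norm_num) (wv 1 1 (by norm_num) k1) 1 _ _ (by norm_num) (by decide)
  have h16 : F 1 6 = κ := cl (-1) 6 (by norm_num) (wv 2 1 (by norm_num) k2) 1 _ _ (by norm_num) (by decide)
  -- one half and two thirds
  have mt1 : KTy 12 (5 * (-1)) (5 * 3) (-6) := Or.inr (by decide)
  have e23 : F 2 3 = F 1 2 := by
    have m1 := h.gam 12 (-1) 3 (-6) mt1 1 2 1 3 (by norm_num) (by norm_num)
    have s1 := cl 1 1 (by norm_num) k1 (-3) (-3) (-3) (by norm_num) (by decide)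
    norm_num at m1
    rw [s1, h13] at m1
    linear_combination m1
  have h12 : F 1 2 = κ := by
    have m2 := sw 1 2 (by norm_num)
    have m3 := st 2 3 (by norm_num)
    norm_num at m2 m3
    linear_combination (m2 - m3 - e23) / 2
  have h23 : F 2 3 = κ := e23.trans h12
  -- one quarter and four thirds
  have mt2 : KTy 24 (5 * (-1)) (5 * 3) (-3) := Or.inr (by decide)
  have e43 : F 4 3 = F 1 4 := by
    have m1 := h.gam 24 (-1) 3 (-3) mt2 1 4 1 6 (by norm_num) (by norm_num)
    have s1 := cl 2 1 (by norm_num) k2 (-3) (-6) (-3) (by norm_num) (by decide)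
    norm_num at m1
    rw [s1, h16] at m1
    linear_combination m1
  have h14 : F 1 4 = κ := by
    have m2 := sw 1 4 (by norm_num)
    have m3 := st 4 3 (by norm_num)
    norm_num at m2 m3
    linear_combination (m2 - m3 - e43) / 2
  have h43 : F 4 3 = κ := e43.trans h14
  refine far3 hfar F h.hom fun p q r s hd hpar => ?_
  have hL : ∀ t ∈ L1 ++ L2, KTy t.1 t.2.1 t.2.2.1 t.2.2.2 ∧ F t.1 t.2.2.1 = κ ∧
      F t.2.1 t.2.2.2 = κ := by
    intro t ht
    simp only [L1, L2, List.cons_append, List.nil_append, List.mem_cons, List.not_mem_nil,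
      or_false] at ht
    rcases ht with rfl | rfl | rfl | rfl | rfl | rfl | rfl | rfl | rfl | rfl | rfl | rfl | rfl | rfl | rfl | rfl | rfl | rfl | rfl | rfl | rfl | rfl | rfl | rfl | rfl | rfl | rfl | rfl | rfl | rfl
    · exact ⟨Or.inl (by decide), cl 4 3 (by decide) h43 (1) _ _ (by decide) (by decide),
        cl 1 1 (by decide) k1 (1) _ _ (by decide) (by decide)⟩
    · exact ⟨Or.inl (by decide), cl 4 3 (by decide) h43 (-1) _ _ (by decide) (by decide),
        cl 1 1 (by decide) k1 (1) _ _ (by decide) (by decide)⟩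
    · exact ⟨Or.inl (by decide), cl 1 3 (by decide) h13 (1) _ _ (by decide) (by decide),
        cl 1 2 (by decide) h12 (-1) _ _ (by decide) (by decide)⟩
    · exact ⟨Or.inl (by decide), cl 2 3 (by decide) h23 (1) _ _ (by decide) (by decide),
        cl 1 1 (by decide) k1 (-1) _ _ (by decide) (by decide)⟩
    · exact ⟨Or.inl (by decide), cl 2 3 (by decide) h23 (-1) _ _ (by decide) (by decide),
        cl 1 1 (by decide) k1 (-1) _ _ (by decide) (by decide)⟩
    · exact ⟨Or.inl (by decide), cl 1 3 (by decide) h13 (-1) _ _ (by decide) (by decide),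
        cl 1 2 (by decide) h12 (-1) _ _ (by decide) (by decide)⟩
    · exact ⟨Or.inl (by decide), cl 2 3 (by decide) h23 (1) _ _ (by decide) (by decide),
        cl 1 2 (by decide) h12 (1) _ _ (by decide) (by decide)⟩
    · exact ⟨Or.inl (by decide), cl 2 3 (by decide) h23 (-1) _ _ (by decide) (by decide),
        cl 1 2 (by decide) h12 (1) _ _ (by decide) (by decide)⟩
    · exact ⟨Or.inl (by decide), cl 1 0 (by decide) k0 (1) _ _ (by decide) (by decide),
        cl 2 1 (by decide) k2 (1) _ _ (by decide) (by decide)⟩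
    · exact ⟨Or.inl (by decide), cl 1 0 (by decide) k0 (1) _ _ (by decide) (by decide),
        cl 1 1 (by decide) k1 (1) _ _ (by decide) (by decide)⟩
    · exact ⟨Or.inl (by decide), cl 1 6 (by decide) h16 (1) _ _ (by decide) (by decide),
        cl 0 1 (by decide) b0 (1) _ _ (by decide) (by decide)⟩
    · exact ⟨Or.inl (by decide), cl 1 3 (by decide) h13 (1) _ _ (by decide) (by decide),
        cl 0 1 (by decide) b0 (1) _ _ (by decide) (by decide)⟩
    · exact ⟨Or.inl (by decide), cl 1 0 (by decide) k0 (1) _ _ (by decide) (by decide),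
        cl 0 1 (by decide) b0 (1) _ _ (by decide) (by decide)⟩
    · exact ⟨Or.inl (by decide), cl 1 3 (by decide) h13 (-1) _ _ (by decide) (by decide),
        cl 0 1 (by decide) b0 (1) _ _ (by decide) (by decide)⟩
    · exact ⟨Or.inl (by decide), cl 1 6 (by decide) h16 (-1) _ _ (by decide) (by decide),
        cl 0 1 (by decide) b0 (1) _ _ (by decide) (by decide)⟩
    · exact ⟨Or.inl (by decide), cl 1 0 (by decide) k0 (1) _ _ (by decide) (by decide),
        cl 1 1 (by decide) k1 (1) _ _ (by decide) (by decide)⟩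
    · exact ⟨Or.inl (by decide), cl 1 0 (by decide) k0 (1) _ _ (by decide) (by decide),
        cl 2 1 (by decide) k2 (1) _ _ (by decide) (by decide)⟩
    · exact ⟨Or.inr (by decide), cl 2 1 (by decide) k2 (-3) _ _ (by decide) (by decide),
        cl 1 0 (by decide) k0 (1) _ _ (by decide) (by decide)⟩
    · exact ⟨Or.inr (by decide), cl 2 1 (by decide) k2 (3) _ _ (by decide) (by decide),
        cl 1 0 (by decide) k0 (-1) _ _ (by decide) (by decide)⟩
    · exact ⟨Or.inr (by decide), cl 1 1 (by decide) k1 (-3) _ _ (by decide) (by decide),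
        cl 4 3 (by decide) h43 (-1) _ _ (by decide) (by decide)⟩
    · exact ⟨Or.inr (by decide), cl 1 2 (by decide) h12 (-3) _ _ (by decide) (by decide),
        cl 2 3 (by decide) h23 (-1) _ _ (by decide) (by decide)⟩
    · exact ⟨Or.inr (by decide), cl 1 1 (by decide) k1 (-3) _ _ (by decide) (by decide),
        cl 1 0 (by decide) k0 (1) _ _ (by decide) (by decide)⟩
    · exact ⟨Or.inr (by decide), cl 1 1 (by decide) k1 (3) _ _ (by decide) (by decide),
        cl 4 3 (by decide) h43 (-1) _ _ (by decide) (by decide)⟩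
    · exact ⟨Or.inr (by decide), cl 1 1 (by decide) k1 (3) _ _ (by decide) (by decide),
        cl 1 0 (by decide) k0 (-1) _ _ (by decide) (by decide)⟩
    · exact ⟨Or.inr (by decide), cl 1 2 (by decide) h12 (3) _ _ (by decide) (by decide),
        cl 2 3 (by decide) h23 (-1) _ _ (by decide) (by decide)⟩
    · exact ⟨Or.inr (by decide), cl 0 1 (by decide) b0 (-3) _ _ (by decide) (by decide),
        cl 1 6 (by decide) h16 (1) _ _ (by decide) (by decide)⟩
    · exact ⟨Or.inr (by decide), cl 0 1 (by decide) b0 (-3) _ _ (by decide) (by decide),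
        cl 1 3 (by decide) h13 (1) _ _ (by decide) (by decide)⟩
    · exact ⟨Or.inr (by decide), cl 0 1 (by decide) b0 (-3) _ _ (by decide) (by decide),
        cl 1 0 (by decide) k0 (1) _ _ (by decide) (by decide)⟩
    · exact ⟨Or.inr (by decide), cl 0 1 (by decide) b0 (-3) _ _ (by decide) (by decide),
        cl 1 3 (by decide) h13 (-1) _ _ (by decide) (by decide)⟩
    · exact ⟨Or.inr (by decide), cl 0 1 (by decide) b0 (-3) _ _ (by decide) (by decide),
        cl 1 6 (by decide) h16 (-1) _ _ (by decide) (by decide)⟩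
  have hc : (p : ZMod 5) * s - q * r = 1 := by
    have h' := congrArg (Int.cast : ℤ → ZMod 5) hd
    push_cast at h'
    exact h'
  obtain ⟨t, htL, e1, e2⟩ := cls _ _ _ _ hc
  obtain ⟨f1, f2, f3⟩ := hL t htL
  exact one h f1 (f2.trans f3.symm) hd hpar (dvd5.2 (by push_cast; exact e1))
    (dvd5.2 (by push_cast; exact e2))

private theorem five {x y : ℤ} (h : x ≠ 0 ∨ y ≠ 0) : x ≠ 0 ∨ 5 * y ≠ 0 := by
  rcases h with h | h
  · exact Or.inl h
  · exact Or.inr (by omega)

/-- BS for `p = 5`. -/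
theorem hBs5 : SKBs5 := by
  intro hfar K hS hW hst h0 h1 h2
  obtain ⟨hH, hG⟩ := hS
  obtain ⟨F, hF⟩ : ∃ F : ℤ → ℤ → ℂ, ∀ x y, F x y = K x (5 * y) := ⟨fun x y => K x (5 * y),
    fun _ _ => rfl⟩
  have hI : Inv F := by
    refine ⟨?_, ?_, ?_, ?_⟩
    · intro k p q hk hpq
      rw [hF, hF]
      have := hH k p (5 * q) hk (five hpq)
      rw [← this]
      congr 1; ring
    · intro a b c d hd x y z w hv hw
      have hT : KTy a b (25 * c) d := by
        rcases hd with ⟨h1, h2⟩ | ⟨h1, h2, h3, h4⟩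
        · exact Or.inl ⟨by linear_combination h1, by omega⟩
        · exact Or.inr ⟨by linear_combination h1, h2, by omega, h4⟩
      have e := (hG a b (25 * c) d hT (by simp) ⟨c, by norm_num⟩).diff (five hv) (five hw)
      simp only [act] at e
      rw [hF, hF, hF, hF, ← e]
      congr 2 <;> ring
    · intro x y z w hv hw
      have e := hst.diff (five hv) (five hw)
      simp only [act] at e
      rw [hF, hF, hF, hF, ← e]
      congr 2 <;> ring
    · intro x y z w hv hw
      have e := hW.diff (five hv) (five hw)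
      simp only [act, Pi.neg_apply] at e
      have q1 : ∀ x y : ℤ, (x ≠ 0 ∨ y ≠ 0) →
          K (0 * x + -1 * (5 * y)) (3 * (5 : ℤ) ^ 2 * x + 0 * (5 * y)) = F (-y) (3 * x) := by
        intro x y hv
        rw [hF]
        have := hH 5 (-y) (5 * (3 * x)) (by norm_num) (by omega)
        rw [← this]
        congr 1 <;> ring
      rw [q1 x y hv, q1 z w hw] at e
      rw [e, hF, hF]
      ring
  have hc : EqC F 0 := by
    refine main hI (κ := K 1 0) ?_ ?_ ?_ ?_ hfar
    · rw [hF]; norm_num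
    · rw [hF, ← h0]
      have := hH 5 0 1 (by norm_num) (by norm_num)
      norm_num at this ⊢
      exact this
    · rw [hF, ← h1]; norm_num
    · rw [hF, ← h2]; norm_num
  obtain ⟨c, hc⟩ := hc
  refine ⟨c, fun p q hpq => ?_⟩
  have e1 := hc (5 * p) q (by omega)
  rw [hF] at e1
  have e2 := hH 5 p q (by norm_num) hpq
  rw [← e2, e1]
  simp

end Pool.Agent.Helper83.TKC
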