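import Pool.Agent.Helper83.TKC.StB2

/-!
# Project TK: the levels `3` and `15`

Adapted from `Helper93/TLH/M_Bs.lean` (`far2`), `M_Core1.lean` and `M_Core71.lean`.
-/

set_option autoImplicit false

namespace Pool.Agent.Helper83.TKC

open Pool.Agent.Helper14.CV (Homog EqC act Tl StFar StFex)
open Pool.Agent.Helper28.WK (Tw evw)
open Pool.Agent.Helper4.TK

/-- Equal values at the ends of all paths `{g∞, g0}`, `g` in `Γ₀(3)`, suffice. -/
theorem far3 (hfar : StFar) {R : Type} [AddCommGroup R] (F : ℤ → ℤ → R) (hom : Homog F)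
    (h : ∀ p q r s : ℤ, p * s - q * r = 1 → (3 : ℤ) ∣ r → F p r = F q s) : EqC F 0 := by
  refine hfar R _ F hom fun p q r s hd => ?_
  have hne : p ≠ 0 ∨ r ≠ 0 := by
    by_contra hcon
    push Not at hcon
    rw [hcon.1, hcon.2] at hd
    simp at hd
  have hng : F (-p) (-r) = F p r := by
    have := hom (-1) p r (by norm_num) hne
    rwa [neg_one_mul, neg_one_mul] at this
  by_cases hr : (3 : ℤ) ∣ r
  · exact h p q r s hd hr
  by_cases hs : (3 : ℤ) ∣ s
  · have := h q (-p) s (-r) (by linear_combination hd) hs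
    rw [this, hng]
  · have h2 : (3 : ℤ) ∣ r - s ∨ (3 : ℤ) ∣ r + s := by
      rcases (by omega : r % 3 = 1 ∨ r % 3 = 2) with h1 | h1 <;>
        rcases (by omega : s % 3 = 1 ∨ s % 3 = 2) with h3 | h3 <;> omega
    rcases h2 with h2 | h2
    · have e1 := h (p - q) q (r - s) s (by linear_combination hd) h2
      have e2 := h (p - q) p (r - s) r (by linear_combination hd) h2
      rw [← e2, e1]
    · have e1 := h (p + q) q (r + s) s (by linear_combination hd) h2
      have e2 := h (p + q) (-p) (r + s) (-r) (by linear_combination hd) h2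
      rw [← hng, ← e2, e1]

/-- Level `3`. -/
theorem hCore0 : SKCore0 := by
  intro hfar p G hS _ _ hev
  have h01 : G 1 0 - G 0 1 = 0 := hev [] (by intro l hl; simp at hl)
  refine far3 hfar G hS.1 fun a b c d h hc => ?_
  have e := (hS.2 a b c d (Or.inl ⟨h, hc⟩) (by simp) (by simp)).diff (p := 1) (q := 0) (p' := 0)
    (q' := 1) (Or.inl one_ne_zero) (Or.inr one_ne_zero)
  simp only [act, mul_one, mul_zero, add_zero, zero_add] at e
  rw [h01] at e
  exact sub_eq_zero.1 e

private theorem nz {a b c d e : ℤ} (h : a * d - b * c = e) (he : e ≠ 0) :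
    (a ≠ 0 ∨ c ≠ 0) ∧ (b ≠ 0 ∨ d ≠ 0) := by
  constructor
  · by_contra hcon
    push Not at hcon
    rw [hcon.1, hcon.2] at h
    apply he
    rw [← h]
    ring
  · by_contra hcon
    push Not at hcon
    rw [hcon.1, hcon.2] at h
    apply he
    rw [← h]
    ring

/-- The representatives of determinant one. -/
private def L1 : List (ℤ × ℤ × ℤ × ℤ) :=
  [(1, 0, 0, 1), (1, 0, 3, 1), (1, 0, -3, 1)]

/-- The representatives of determinant three. -/
private def L2 : List (ℤ × ℤ × ℤ × ℤ) := [(0, -1, 3, 0), (0, -1, 3, 3), (0, -1, 3, -3)]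

private lemma cls : ∀ r s : ZMod 5, (r ≠ 0 ∨ s ≠ 0) → ∃ t ∈ L1 ++ L2,
    r * (t.2.2.2 : ZMod 5) - s * (t.2.2.1 : ZMod 5) = 0 := by decide

private lemma dvd5 {n : ℤ} : (5 : ℤ) ∣ n ↔ (n : ZMod 5) = 0 :=
  (ZMod.intCast_zmod_eq_zero_iff_dvd n 5).symm

/-- Level `15`. -/
theorem hCore1 : SKCore1 := by
  intro hfar F hS hW hst hev
  have gam : ∀ a b c d : ℤ, KTy a b c d → (5 : ℤ) ∣ c → ∀ x y z w : ℤ, (x ≠ 0 ∨ y ≠ 0) →
      (z ≠ 0 ∨ w ≠ 0) → F (a * x + b * y) (c * x + d * y) - F (a * z + b * w) (c * z + d * w) =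
        F x y - F z w := by
    intro a b c d hT hc x y z w hv hw
    exact (hS.2 a b c d hT (by simp) (by simpa using hc)).diff hv hw
  have hs : ∀ (k x y : ℤ), k ≠ 0 → (x ≠ 0 ∨ y ≠ 0) → F (k * x) (k * y) = F x y := hS.1
  set κ : ℂ := F 1 0 with hκ
  have k0 : F 1 0 = κ := rfl
  have b0 : F 0 1 = κ := by
    have h01 : F 1 0 - F 0 1 = 0 := hev [] (by intro l hl; simp at hl)
    linear_combination -h01
  have a0 : F (-1) 0 = κ := by
    have := hs (-1) 1 0 (by norm_num) (by norm_num)
    norm_num at this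
    rw [this]
  have st : ∀ x y : ℤ, (x ≠ 0 ∨ y ≠ 0) → F (-x) y = F x y := by
    intro x y hv
    have e := hst.diff (p := x) (q := y) (p' := 1) (q' := 0) hv (by norm_num)
    simp only [act] at e
    norm_num at e
    rw [a0] at e
    linear_combination e + k0 - k0
  have w2 : F 1 2 = κ := by
    have e := hev [2] (by
      intro l hl
      rw [List.mem_singleton] at hl
      subst hl
      exact ⟨by norm_num, by norm_num, by norm_num⟩)
    simp only [evw, Tw, Tl, Finset.sum_range_succ, Finset.sum_range_zero] at e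
    have s1 := hs 2 1 0 (by norm_num) (by norm_num)
    have s2 := hs 2 0 1 (by norm_num) (by norm_num)
    norm_num at e s1 s2
    rw [s1, s2, b0, k0] at e
    linear_combination -e
  have mt : KTy 6 1 15 3 := Or.inr (by decide)
  have k3 : F 1 3 = κ := by
    have m1 := gam 6 1 15 3 mt (by norm_num) (-1) 3 0 1 (by norm_num) (by norm_num)
    have s1 := hs (-3) 1 2 (by norm_num) (by norm_num)
    have s2 := st 1 3 (by norm_num)
    norm_num at m1 s1 s2
    rw [s1, s2, w2, b0] at m1
    linear_combination -m1 / 2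
  have k4 : F (-1) 3 = κ := (st 1 3 (by norm_num)).trans k3
  have n0 : F 0 3 = κ := by
    have := hs 3 0 1 (by norm_num) (by norm_num)
    norm_num at this
    rw [this, b0]
  have n1 : F (-1) (-3) = κ := by
    have := hs (-1) 1 3 (by norm_num) (by norm_num)
    norm_num at this
    rw [this, k3]
  refine far3 hfar F hS.1 fun p q r s hd hpar => ?_
  have hpr := (nz hd one_ne_zero).1
  have hqs := (nz hd one_ne_zero).2
  have hL : ∀ t ∈ L1 ++ L2, KTy t.1 t.2.1 t.2.2.1 t.2.2.2 ∧ F t.1 t.2.2.1 = F t.2.1 t.2.2.2 := by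
    intro t ht
    simp only [L1, L2, List.cons_append, List.nil_append, List.mem_cons, List.not_mem_nil,
      or_false] at ht
    have q1 : F 1 (-3) = κ := by
      have := hs (-1) (-1) 3 (by norm_num) (by norm_num)
      norm_num at this
      rw [this, k4]
    rcases ht with rfl | rfl | rfl | rfl | rfl | rfl
    · exact ⟨by unfold KTy; decide, k0.trans b0.symm⟩
    · exact ⟨by unfold KTy; decide, k3.trans b0.symm⟩
    · exact ⟨by unfold KTy; decide, q1.trans b0.symm⟩
    · exact ⟨by unfold KTy; decide, n0.trans a0.symm⟩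
    · exact ⟨by unfold KTy; decide, n0.trans k4.symm⟩
    · exact ⟨by unfold KTy; decide, n0.trans n1.symm⟩
  have hc : (r : ZMod 5) ≠ 0 ∨ (s : ZMod 5) ≠ 0 := by
    by_contra hcon
    push Not at hcon
    have h' := congrArg (Int.cast : ℤ → ZMod 5) hd
    push_cast at h'
    rw [hcon.1, hcon.2, mul_zero, mul_zero, sub_zero] at h'
    exact absurd h' (by decide)
  obtain ⟨t, htL, e2'⟩ := cls _ _ hc
  obtain ⟨hr, h0⟩ := hL t htL
  have e2 : (5 : ℤ) ∣ r * t.2.2.2 - s * t.2.2.1 := dvd5.2 (by push_cast; exact e2')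
  obtain ⟨r1, r2, r3, r4⟩ := t
  simp only at hr h0 e2
  rcases hr with ⟨hr, hr3⟩ | ⟨hr, hr1, hr3, hr4⟩
  · obtain ⟨n1, n2⟩ := nz hr one_ne_zero
    have hT : KTy (p * r4 - q * r3) (q * r1 - p * r2) (r * r4 - s * r3) (s * r1 - r * r2) := by
      refine Or.inl ⟨?_, ?_⟩
      · linear_combination (p * s - q * r) * hr + hd
      · exact dvd_sub (Dvd.dvd.mul_right hpar _) (Dvd.dvd.mul_left hr3 _)
    have e := gam _ _ _ _ hT e2 r1 r3 r2 r4 n1 n2
    have g1 : (p * r4 - q * r3) * r1 + (q * r1 - p * r2) * r3 = p := by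
      linear_combination p * hr
    have g2 : (r * r4 - s * r3) * r1 + (s * r1 - r * r2) * r3 = r := by
      linear_combination r * hr
    have g3 : (p * r4 - q * r3) * r2 + (q * r1 - p * r2) * r4 = q := by
      linear_combination q * hr
    have g4 : (r * r4 - s * r3) * r2 + (s * r1 - r * r2) * r4 = s := by
      linear_combination s * hr
    rw [g1, g2, g3, g4, h0, sub_self] at e
    exact sub_eq_zero.1 e
  · obtain ⟨n1, n2⟩ := nz hr three_ne_zero
    have hT : KTy (p * r4 - q * r3) (q * r1 - p * r2) (r * r4 - s * r3) (s * r1 - r * r2) := by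
      refine Or.inr ⟨?_, ?_, ?_, ?_⟩
      · linear_combination (p * s - q * r) * hr + 3 * hd
      · exact dvd_sub (Dvd.dvd.mul_left hr4 _) (Dvd.dvd.mul_left hr3 _)
      · exact dvd_sub (Dvd.dvd.mul_right hpar _) (Dvd.dvd.mul_left hr3 _)
      · exact dvd_sub (Dvd.dvd.mul_left hr1 _) (Dvd.dvd.mul_right hpar _)
    have e := gam _ _ _ _ hT e2 r1 r3 r2 r4 n1 n2
    have g1 : (p * r4 - q * r3) * r1 + (q * r1 - p * r2) * r3 = 3 * p := by
      linear_combination p * hr
    have g2 : (r * r4 - s * r3) * r1 + (s * r1 - r * r2) * r3 = 3 * r := by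
      linear_combination r * hr
    have g3 : (p * r4 - q * r3) * r2 + (q * r1 - p * r2) * r4 = 3 * q := by
      linear_combination q * hr
    have g4 : (r * r4 - s * r3) * r2 + (s * r1 - r * r2) * r4 = 3 * s := by
      linear_combination s * hr
    rw [g1, g2, g3, g4, h0, sub_self, hs 3 p r three_ne_zero hpr, hs 3 q s three_ne_zero hqs] at e
    exact sub_eq_zero.1 e

end Pool.Agent.Helper83.TKC
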