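import Pool.Agent.Helper83.TKC.StB2
import Pool.Agent.Helper83.TKC.M_Core
import Pool.Agent.Helper46.TKC.M_Hk
import Pool.Agent.Helper48.TKC.M_HkS
import Pool.Agent.Helper52.TKC.M_HkW
import Pool.Agent.Helper36.TKC.M_Ev
import Pool.Agent.Helper85.TKC.M_Avg
import Pool.Agent.Helper22.TKC.M_Mon
import Pool.Agent.Helper61.TKC.M_Com
import Pool.Agent.Helper29.TKC.M_B3a
import Pool.Agent.Helper72.TKC.M_CoreOf
import Pool.Agent.Helper44.TKC.M_B3bG
import Pool.Agent.Helper66.TKC.M_Core2G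
import Pool.Agent.Helper83.TKC.M_Bs5
import Pool.Agent.Helper38.CV.M_Far
import Pool.Agent.Helper28.TK.M_Bridge

/-!
# Project TK: the cores for levels `3·5^n` from the upper and the lower bound
-/

set_option autoImplicit false

namespace Pool.Agent.Helper83.TKC

open Pool.Agent.Helper14.CV (G0 RootOne Lan)
open Pool.Agent.Helper28.TL (IsNewN)
open Pool.Agent.Helper28.TH (ALPlus)
open Pool.Agent.Helper28.TK (finalKN finalKS)
open Pool.Agent.Helper4.TK (B3bK UBK LBK CoreK CoreVK ddK5)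

theorem hkK : SKHk := Pool.Agent.Helper46.TKC.hHk

theorem hksK : SKHkS := Pool.Agent.Helper48.TKC.hHkS hkK

theorem hkwK : SKHkW := Pool.Agent.Helper52.TKC.hHkW hkK

theorem avgK : SKAvg := Pool.Agent.Helper85.TKC.hAvg

theorem evK : SKEv := Pool.Agent.Helper36.TKC.hEv hksK hkwK

theorem b3aK : SKB3a :=
  Pool.Agent.Helper29.TKC.hB3a avgK Pool.Agent.Helper22.TKC.hMon Pool.Agent.Helper61.TKC.hCom evK

theorem bsG5K : BsGK 5 3 a5K := bsG5 (Pool.Agent.Helper83.TKC.hBs5 Pool.Agent.Helper38.CV.hFar)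

theorem b3b5K : B3bK 5 3 :=
  Pool.Agent.Helper44.TKC.hB3bG 5 3 a5K (by norm_num) (by norm_num) avgK evK bsG5K

/-- The core for levels `3·5^n`, `n ≥ 3`. -/
theorem core5K (dd : ℕ → ℕ) (ub : UBK 5 dd) (lb : LBK 5 3 dd) : CoreK 5 :=
  Pool.Agent.Helper72.TKC.hCoreOf b3aK 5 3 dd (by norm_num) (by norm_num) b3b5K ub lb

theorem core52K (dd : ℕ → ℕ) (lb : LBK 5 3 dd) : CoreVK 5 2 :=
  Pool.Agent.Helper66.TKC.hCore2G 5 3 a5K (by norm_num) (by norm_num) dd avgK evK bsG5K lb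

theorem core51K : CoreVK 5 1 := hCore1 Pool.Agent.Helper38.CV.hFar

theorem core0K (p : ℕ) : CoreVK p 0 := hCore0 Pool.Agent.Helper38.CV.hFar p

/-- Levels `3` and `15`. -/
theorem lvalK5s (n : ℕ) (hn : n ≤ 1) [NeZero (3 * 5 ^ n)] (f : CuspForm (G0 (3 * 5 ^ n)) 2)
    (hf : IsNewN f) (hal : ALPlus 3 (5 ^ n) f) (hR : RootOne f) : Lan f (1 / 2) ≠ 0 := by
  rcases (by omega : n = 0 ∨ n = 1) with rfl | rfl
  · exact finalKS 5 0 (by norm_num) (by norm_num) (core0K 5) f hf hal hR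
  · exact finalKS 5 1 (by norm_num) (by norm_num) core51K f hf hal hR

/-- Levels `3·5^n`. -/
theorem lvalK5 (dd : ℕ → ℕ) (ub : UBK 5 dd) (lb : LBK 5 3 dd) (n : ℕ)
    [NeZero (3 * 5 ^ n)] (f : CuspForm (G0 (3 * 5 ^ n)) 2)
    (hf : IsNewN f) (hal : ALPlus 3 (5 ^ n) f) (hR : RootOne f) : Lan f (1 / 2) ≠ 0 := by
  rcases (by omega : n ≤ 1 ∨ n = 2 ∨ 3 ≤ n) with hn | rfl | hn
  · exact lvalK5s n hn f hf hal hR
  · exact finalKS 5 2 (by norm_num) (by norm_num) (core52K dd lb) f hf hal hR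
  · exact finalKN 5 n (by norm_num) (by norm_num) (by omega)
      (fun G h ev => core5K dd ub lb n G hn h ev) f hf hal hR

end Pool.Agent.Helper83.TKC
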