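import Pool.Agent.Helper4.TK.Defs

/-!
# Project TK (levels `3 p^n`, `p ≠ 3`, `W_3 = +1`): Hecke operators and the dimension chain

Copies of the statements of `Helper93/TLH/StB.lean` (project TH, proved; modules `Pool/Agent/Helper*/TLH/M_*.lean`) for `SymK` (`Helper4/TK/Defs.lean`): `2` replaced by `3`, `HTy` by `KTy`, `OkE` by `OkK` (the prime `l = 2` is allowed, `l ≠ 3`), `T_l = Tl l 1`,
`W = act 0 (-1) (3 p^n) 0`, `* = act (-1) 0 0 1`; convention `act M (act M' G) = act (M' M) G`. The matrices of the second type in `KTy` are `(3a b; 3p^n c 3d)` of determinant three.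
-/

set_option autoImplicit false

namespace Pool.Agent.Helper83.TKC

open Pool.Agent.Helper14.CV (Homog EqC act Tl StFar StFex)
open Pool.Agent.Helper28.WK (Tw evw)
open Pool.Agent.Helper93.TLE (DDE)
open Pool.Agent.Helper4.TK

/-- HK. Hecke sum over any system of representatives. Proof: `StN1` of CV (`Pool.Agent.Helper10.CV.hN1`) with `N = 3 p^n` gives `δ P = γ_P std (π P)`, `γ_P` in `Γ₀(3 p^n)` (case one of `KTy`), `std = (1 j; 0 l)` (`0 ≤ j < l`) or `(l 0; 0 1)`.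
Model: `Pool/Agent/Helper85/TLH/M_Hk.lean` (with `N = 2 p^n`; the same proof). -/
def SKHk : Prop := ∀ (p : ℕ), p.Prime → p ≠ 3 → ∀ (R : Type) (_ : AddCommGroup R) (n l : ℕ)
  (G : ℤ → ℤ → R), l.Prime → l ≠ p → l ≠ 3 → SymK p 0 n G →
  ∀ δ : Fin (l + 1) → Matrix (Fin 2) (Fin 2) ℤ,
  (∀ P, (δ P).det = l) → (∀ P, 3 * (p : ℤ) ^ n ∣ δ P 1 0) →
  (∀ P P', P ≠ P' → ¬ ∀ i j, (l : ℤ) ∣ (δ P * (δ P').adjugate) i j) →
  EqC (fun x y => ∑ P, G (δ P 0 0 * x + δ P 0 1 * y) (δ P 1 0 * x + δ P 1 1 * y)) (Tl l 1 G)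

/-- HKS (from HK). `T_l` preserves symbols. Proof. For `γ` of determinant one: HK for the family `std_P γ` (`std_P = (1 j; 0 l), (l 0; 0 1)`). For `γ = (3a b; 3p^n c 3d)` of determinant three: with `γ' = adj γ = (3d -b; -3p^n c 3a)` (again of type two) the
matrices `δ_P = (γ' std_P γ)/3` are integral (all entries of `γ' std_P γ` are divisible by `3`), of determinant `l`, the lower left entry is divisible by `3 p^n`, and `3 δ_P adj(δ_P') = γ' std_P adj(std_P') adj(γ')`: pairwise inequivalent as `l ≠ 3`. So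
`∑_P G(std_P γ v) ≈ ∑_P G(γ' std_P γ v)` (`G∘γ' ≈ G` at the vectors `std_P γ v`) `= ∑_P G(3 δ_P v) = ∑_P G(δ_P v) ≈ (T_l G)(v)`.
Model: `Pool/Agent/Helper36/TLH/M_HkS.lean`. -/
def SKHkS : Prop := ∀ (p : ℕ), p.Prime → p ≠ 3 → ∀ (R : Type) (_ : AddCommGroup R) (n : ℕ)
  (G : ℤ → ℤ → R), SymK p 0 n G → ∀ l : ℕ, l.Prime → l ≠ p → l ≠ 3 → SymK p 0 n (Tl l 1 G)

/-- HKW (from HK). `T_l` commutes with `W` and with `*`: HK for the families `W std_P W⁻¹ = (l 0; -3jp^n 1), (1 0; 0 l)` and `* std_P * = (1 -j; 0 l), (l 0; 0 1)`. Model: `Pool/Agent/Helper45/TLH/M_HkW.lean`. -/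
def SKHkW : Prop := ∀ (p : ℕ), p.Prime → p ≠ 3 → ∀ (R : Type) (_ : AddCommGroup R) (n : ℕ)
  (G : ℤ → ℤ → R), SymK p 0 n G → ∀ l : ℕ, l.Prime → l ≠ p → l ≠ 3 →
    EqC (Tl l 1 (act 0 (-1) (3 * (p : ℤ) ^ n) 0 G)) (act 0 (-1) (3 * (p : ℤ) ^ n) 0 (Tl l 1 G)) ∧
    EqC (Tl l 1 (act (-1) 0 0 1 G)) (act (-1) 0 0 1 (Tl l 1 G))

/-- EV (from HKS, HKW). `W` exchanges the two ends of `{0, ∞}`: the values at words change sign; `*` fixes them (induction on the word; `EqC.Tl`, `Homog`). Model: `Pool/Agent/Helper73/TLH/M_Ev.lean`. -/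
def SKEv : Prop := ∀ (p : ℕ), p.Prime → p ≠ 3 → ∀ (R : Type) (_ : AddCommGroup R) (n : ℕ)
  (G : ℤ → ℤ → R), SymK p 0 n G → ∀ ls : List ℕ, OkK p ls →
  evw 1 ls (act 0 (-1) (3 * (p : ℤ) ^ n) 0 G) = -evw 1 ls G ∧ evw 1 ls (act (-1) 0 0 1 G) = evw 1 ls G

/-- AVG (`n ≥ 2`, `N = 3 p^n`, `M = 3 p^(n-1)`, `t_i = (p i; 0 p)`, `σ_i = (1 0; iM 1)`). (a) `tSK` preserves symbols of level `n`; (b) `sSK p n G` has level `n - 1`; (c) so has `act W (tSK p G)`; (d) `W` and `*` preserve symbols of level `n`.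
Proof. For `γ = (a b; c d)` of type `KTy` with `p^n ∣ c`: `t_i γ = γ' t_i'` with `γ' = (a + ic/p, b + (i d - i' a)/p - i i' c/p²; c, d - i' c/p)`: integral for `i' ≡ i d/a` modulo `p` (`a` is prime to `p`) if `n ≥ 2`, of the same type as `γ` (`3 ∣ c/p`; the diagonal entries change by multiples of `3`), a bijection `i ↦ i'` of the
residues modulo `p` (reindex; `t_(i+p) = (1 1; 0 1) t_i`). (b): for `γ` of level `n - 1` (`p^(n-1) ∣ c`): `σ_i γ = γ' σ_i'`, `γ' = (a - i' M b, b; c + iMa - i'(M d + i M² b), d + iMb)`: lower left entry divisible by `p^n` for the right `i'` (`d` is prime to `p`), type kept (`3 ∣ M`). (c) `W t_i = (0 -p; Np, Ni) = p σ_(-i) W`, so `act W (tSK p G)` is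
the sum over `σ` of the symbol `act W G`, up to constants. (d) `W γ = γ' W` with `γ' = (d -c/N; -N b a)` (type two: `c/N` any integer), `* γ * = (a -b; -c d)`.
Model: `Pool/Agent/Helper69/TLH/M_Avg.lean`. -/
def SKAvg : Prop := ∀ (p : ℕ), p.Prime → p ≠ 3 → ∀ (n : ℕ) (G : ℤ → ℤ → ℂ), 2 ≤ n → SymK p 0 n G →
  SymK p 0 n (tSK p G) ∧ SymK p 0 (n - 1) (sSK p n G) ∧
  SymK p 0 (n - 1) (act 0 (-1) (3 * (p : ℤ) ^ n) 0 (tSK p G)) ∧
  SymK p 0 n (act 0 (-1) (3 * (p : ℤ) ^ n) 0 G) ∧ SymK p 0 n (act (-1) 0 0 1 G)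

/-- MON. A symbol of level `m` is one of level `n`, `n ≥ m`. Model: `Pool/Agent/Helper81/TLH/M_Mon.lean`. -/
def SKMon : Prop := ∀ (p : ℕ) (R : Type) (_ : AddCommGroup R) (m n : ℕ) (G : ℤ → ℤ → R), m ≤ n →
  SymK p 0 m G → SymK p 0 n G

/-- COM (`n ≥ 3`). Relations up to constants, each from an identity of integral matrices up to a scalar and an element of `Γ₀(3p^n)` (type one of `KTy`) on the left: `t_i t_j` is `t_(i+j)` up to the scalar `p`, `t_(i+p) = (1 1; 0 1) t_i`, `σ_p` is in `Γ₀(3p^n)`, `t_i σ_j` and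
`σ_j t_i` differ by an element of `Γ₀(3p^n)`; `W t_i` is `σ_(-i) W` and `W σ_i` is `t_(-i) W` up to scalars; `* t_i = t_(-i) *`, `* σ_i = σ_(-i) *`, `* W = - W *`; sums over all residues modulo `p` may be reindexed. Model: `Pool/Agent/Helper29/TLH/M_Com.lean`. -/
def SKCom : Prop := ∀ (p : ℕ), p.Prime → p ≠ 3 → ∀ (n : ℕ) (G : ℤ → ℤ → ℂ), 3 ≤ n → SymK p 0 n G →
  EqC (tSK p (tSK p G)) ((p : ℂ) • tSK p G) ∧
  EqC (sSK p n (sSK p n G)) ((p : ℂ) • sSK p n G) ∧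
  EqC (tSK p (sSK p n G)) (sSK p n (tSK p G)) ∧
  EqC (tSK p (act 0 (-1) (3 * (p : ℤ) ^ n) 0 G)) (act 0 (-1) (3 * (p : ℤ) ^ n) 0 (sSK p n G)) ∧
  EqC (sSK p n (act 0 (-1) (3 * (p : ℤ) ^ n) 0 G)) (act 0 (-1) (3 * (p : ℤ) ^ n) 0 (tSK p G)) ∧
  EqC (tSK p (act (-1) 0 0 1 G)) (act (-1) 0 0 1 (tSK p G)) ∧
  EqC (sSK p n (act (-1) 0 0 1 G)) (act (-1) 0 0 1 (sSK p n G)) ∧
  EqC (act 0 (-1) (3 * (p : ℤ) ^ n) 0 (act 0 (-1) (3 * (p : ℤ) ^ n) 0 G)) G ∧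
  EqC (act (-1) 0 0 1 (act (-1) 0 0 1 G)) G ∧
  EqC (act 0 (-1) (3 * (p : ℤ) ^ n) 0 (act (-1) 0 0 1 G)) (act (-1) 0 0 1 (act 0 (-1) (3 * (p : ℤ) ^ n) 0 G))

/-- B3a (from AVG, MON, COM, EV). Decomposition: every symbol of level `n ≥ 3` has the same values at words as a symbol of level `n - 1` plus a new symbol with `W = -1`, `* = 1`. Proof: `A = tSK G / p`, `B = G - A`, `C = sSK B / p`, `E = B - C`, `F = (E - E∘W)/2`,
`G1 = (F + F∘*)/2`, `G0 = C - A∘W`. Model: `Pool/Agent/Helper53/TLH/M_B3a.lean`. -/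
def SKB3a : Prop := ∀ (p : ℕ), p.Prime → p ≠ 3 → ∀ (n : ℕ) (G : ℤ → ℤ → ℂ), 3 ≤ n → SymK p 0 n G →
  ∃ G0 G1 : ℤ → ℤ → ℂ, SymK p 0 (n - 1) G0 ∧ NewSymK p n G1 ∧
    ∀ ls : List ℕ, OkK p ls → evw 1 ls G = evw 1 ls G0 + evw 1 ls G1

/-- CORE. Proof from B3a, B3b, UB, LB (with `XSK, NSK, evLK`). Model: `Pool/Agent/Helper66/TLH/M_CoreOf.lean`. -/
def SKCoreOf : Prop := SKB3a → ∀ (p D : ℕ) (dd : ℕ → ℕ), p.Prime → p ≠ 3 → B3bK p D → UBK p dd →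
  LBK p D dd → CoreK p

/-- A symbol `K` of level `3 p^2` with `K∘W ≈ -K`, `K∘* ≈ K` and `a K = 0` is constant. -/
def BsGK (p D : ℕ) (a : (ℤ → ℤ → ℂ) →ₗ[ℂ] (Fin D → ℂ)) : Prop := ∀ K : ℤ → ℤ → ℂ, SymK p 0 2 K →
  EqC (act 0 (-1) (3 * (p : ℤ) ^ 2) 0 K) (-K) → EqC (act (-1) 0 0 1 K) K → a K = 0 → EqC K 0

/-- B3b for `p ≠ 3` (from AVG, EV, `BsGK`). Model: `Pool/Agent/Helper73/TLH/M_B3bG.lean`. -/
def SKB3bG : Prop := ∀ (p D : ℕ) (a : (ℤ → ℤ → ℂ) →ₗ[ℂ] (Fin D → ℂ)), p.Prime → p ≠ 3 →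
  SKAvg → SKEv → BsGK p D a → B3bK p D

/-- CORE2 (level `3 p^2`). Model: `Pool/Agent/Helper36/TLH/M_Core2G.lean`. -/
def SKCore2G : Prop := ∀ (p D : ℕ) (a : (ℤ → ℤ → ℂ) →ₗ[ℂ] (Fin D → ℂ)), p.Prime → p ≠ 3 →
  ∀ dd : ℕ → ℕ, SKAvg → SKEv → BsGK p D a → LBK p D dd → CoreVK p 2

end Pool.Agent.Helper83.TKC
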