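import Pool.Agent.Helper83.TKC.StB

/-!
# Project TK (levels `3·5^n`): the levels `75`, `15` and `3`
-/

set_option autoImplicit false

namespace Pool.Agent.Helper83.TKC

open Pool.Agent.Helper14.CV (Homog EqC act Tl StFar StFex)
open Pool.Agent.Helper28.WK (Tw evw)
open Pool.Agent.Helper4.TK

/-- The content of BS for `p = 5`: a symbol `K` of level `75` with `K∘W ≈ -K`, `K∘* ≈ K` and `K(∞) = K(0) = K(1/5) = K(2/5)` is constant (the space of such symbols modulo constants has dimension three, and these three differences are coordinates; checked with a computer). -/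
def BsK5 : Prop := ∀ K : ℤ → ℤ → ℂ, SymK 5 0 2 K → EqC (act 0 (-1) (3 * (5 : ℤ) ^ 2) 0 K) (-K) →
  EqC (act (-1) 0 0 1 K) K → K 0 1 = K 1 0 → K 1 5 = K 1 0 → K 2 5 = K 1 0 → EqC K 0

/-- BS5. Model: `Pool/Agent/Helper93/TLH/M_Bs7.lean` (`hBs7`). -/
def SKBs5 : Prop := StFar → BsK5

/-- CORE1 (level `15`: dimension two; the words `[]` and `[2]` suffice, that is, `K(0) = K(∞)` and `K(1/2) = K(∞)` make `K` constant, checked with a computer). Model: `Pool/Agent/Helper93/TLH/M_Core71.lean` (`hCore71`). -/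
def SKCore1 : Prop := StFar → CoreVK 5 1

/-- CORE0 (level `3`: dimension zero). Model: `hCore0` in `Pool/Agent/Helper93/TLH/M_Core1.lean`. -/
def SKCore0 : Prop := StFar → ∀ p : ℕ, CoreVK p 0

/-- The three coordinates at level `75`. -/
def a5K : (ℤ → ℤ → ℂ) →ₗ[ℂ] (Fin 3 → ℂ) where
  toFun K := ![K 0 1 - K 1 0, K 1 5 - K 1 0, K 2 5 - K 1 0]
  map_add' K L := by
    funext i
    fin_cases i <;> simp <;> ring
  map_smul' s K := by
    funext i
    fin_cases i <;> simp <;> ring

theorem bsG5 (h : BsK5) : BsGK 5 3 a5K := by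
  intro K hS hW hst ha
  have e0 := congrFun ha 0
  have e1 := congrFun ha 1
  have e2 := congrFun ha 2
  simp only [a5K, LinearMap.coe_mk, AddHom.coe_mk, Matrix.cons_val_zero, Matrix.cons_val_one,
    Matrix.cons_val, Pi.zero_apply] at e0 e1 e2
  exact h K hS (by rwa [Nat.cast_ofNat] at hW) hst (sub_eq_zero.1 e0)
    (sub_eq_zero.1 e1) (sub_eq_zero.1 e2)

end Pool.Agent.Helper83.TKC
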